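import Pool.Agent.helper29.RS.SpecK
import Pool.Agent.helper62.QU.CA1

set_option autoImplicit false

open scoped MatrixGroups ContDiff Topology UpperHalfPlane ComplexConjugate
open UpperHalfPlane MeasureTheory Filter Set

namespace Pool.Agent.RS

noncomputable section

/-- the point -/
def OV1_Z (q : (ℝ × ℝ × ℝ × ℝ) × (ℝ × ℝ)) : ℂ := (q.2.1 : ℂ) + (Real.exp q.2.2 : ℂ) * Complex.I

/-- numerator -/
def OV1_A (q : (ℝ × ℝ × ℝ × ℝ) × (ℝ × ℝ)) : ℂ := (q.1.1 : ℂ) * OV1_Z q + (q.1.2.1 : ℂ)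

/-- denominator -/
def OV1_B (q : (ℝ × ℝ × ℝ × ℝ) × (ℝ × ℝ)) : ℂ := (q.1.2.2.1 : ℂ) * OV1_Z q + (q.1.2.2.2 : ℂ)

/-- the function -/
def OV1_G (c : ℍ → ℂ) (q : (ℝ × ℝ × ℝ × ℝ) × (ℝ × ℝ)) : ℂ :=
  QU.onC c (OV1_Z q) * QU.onC c (OV1_A q / OV1_B q) *
    (((((q.1.2.2.1 * q.2.1 + q.1.2.2.2) ^ 2 + (q.1.2.2.1) ^ 2 * Real.exp (2 * q.2.2)) ^
      (-(1 / 2 : ℝ)) : ℝ)) : ℂ)

/-- the open set -/
def OV1_U : Set ((ℝ × ℝ × ℝ × ℝ) × (ℝ × ℝ)) := {q | 0 < (OV1_A q * conj (OV1_B q)).im}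

lemma OV1_Zs : ContDiff ℝ ∞ OV1_Z := by
  have h1 : ContDiff ℝ ∞ (fun q : (ℝ × ℝ × ℝ × ℝ) × (ℝ × ℝ) => q.2.1) := by fun_prop
  have h2 : ContDiff ℝ ∞ (fun q : (ℝ × ℝ × ℝ × ℝ) × (ℝ × ℝ) => Real.exp q.2.2) := by fun_prop
  exact ContDiff.add (Complex.ofRealCLM.contDiff.comp h1)
    (ContDiff.mul (Complex.ofRealCLM.contDiff.comp h2) contDiff_const)

lemma OV1_As : ContDiff ℝ ∞ OV1_A := by
  unfold OV1_A
  refine ContDiff.add (ContDiff.mul ?_ OV1_Zs) ?_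
  · exact Complex.ofRealCLM.contDiff.comp (by fun_prop)
  · exact Complex.ofRealCLM.contDiff.comp (by fun_prop)

lemma OV1_Bs : ContDiff ℝ ∞ OV1_B := by
  unfold OV1_B
  refine ContDiff.add (ContDiff.mul ?_ OV1_Zs) ?_
  · exact Complex.ofRealCLM.contDiff.comp (by fun_prop)
  · exact Complex.ofRealCLM.contDiff.comp (by fun_prop)

lemma OV1_Uo : IsOpen OV1_U := by
  refine isOpen_lt continuous_const (Complex.continuous_im.comp ?_)
  exact OV1_As.continuous.mul (Complex.continuous_conj.comp OV1_Bs.continuous)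

lemma OV1_Bne (q : (ℝ × ℝ × ℝ × ℝ) × (ℝ × ℝ)) (hq : q ∈ OV1_U) : OV1_B q ≠ 0 := by
  intro h
  have h1 : 0 < (OV1_A q * conj (OV1_B q)).im := hq
  rw [h, map_zero, mul_zero] at h1
  simp at h1

lemma OV1_im (q : (ℝ × ℝ × ℝ × ℝ) × (ℝ × ℝ)) (hq : q ∈ OV1_U) : 0 < (OV1_A q / OV1_B q).im := by
  have h1 : 0 < (OV1_A q * conj (OV1_B q)).im := hq
  have h2 := Complex.normSq_pos.2 (OV1_Bne q hq)
  have h3 : (OV1_A q / OV1_B q).im = (OV1_A q * conj (OV1_B q)).im / Complex.normSq (OV1_B q) := by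
    rw [Complex.div_im]
    simp
    ring
  rw [h3]
  exact div_pos h1 h2

lemma OV1_val (q : (ℝ × ℝ × ℝ × ℝ) × (ℝ × ℝ)) : (OV1_A q * conj (OV1_B q)).im =
    (q.1.1 * q.1.2.2.2 - q.1.2.1 * q.1.2.2.1) * Real.exp q.2.2 := by
  unfold OV1_A OV1_B OV1_Z
  simp [Complex.exp_ofReal_re]
  ring

lemma OV1_nsq (q : (ℝ × ℝ × ℝ × ℝ) × (ℝ × ℝ)) :
    (q.1.2.2.1 * q.2.1 + q.1.2.2.2) ^ 2 + (q.1.2.2.1) ^ 2 * Real.exp (2 * q.2.2) =
      Complex.normSq (OV1_B q) := by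
  rw [Complex.normSq_apply]
  unfold OV1_B OV1_Z
  have : Real.exp (2 * q.2.2) = Real.exp q.2.2 * Real.exp q.2.2 := by
    rw [← Real.exp_add]; ring_nf
  rw [this]
  simp [Complex.exp_ofReal_re]
  ring

lemma OV1_Gs (c : ℍ → ℂ) (hc : QU.CD ∞ c) : ContDiffOn ℝ 1 (OV1_G c) OV1_U := by
  have h0 : ContDiffOn ℝ 1 (QU.onC c) {w : ℂ | 0 < w.im} := hc.of_le (by norm_num)
  unfold OV1_G
  refine ContDiffOn.mul (ContDiffOn.mul ?_ ?_) ?_
  · refine h0.comp (OV1_Zs.of_le (by norm_num)).contDiffOn ?_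
    intro q _
    show 0 < (OV1_Z q).im
    unfold OV1_Z
    simp [Complex.exp_ofReal_re, Real.exp_pos]
  · refine h0.comp ?_ (fun q hq => OV1_im q hq)
    have h2 : ContDiffOn ℝ 1 (fun q => OV1_A q * (OV1_B q)⁻¹) OV1_U :=
      ((OV1_As.of_le (by norm_num)).contDiffOn).mul
        (((OV1_Bs.of_le (by norm_num)).contDiffOn).inv OV1_Bne)
    simpa only [div_eq_mul_inv] using h2
  · have h1 : ContDiffOn ℝ 1 (fun q : (ℝ × ℝ × ℝ × ℝ) × (ℝ × ℝ) =>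
        ((q.1.2.2.1 * q.2.1 + q.1.2.2.2) ^ 2 + (q.1.2.2.1) ^ 2 * Real.exp (2 * q.2.2)) ^
          (-(1 / 2 : ℝ))) OV1_U := by
      refine ContDiffOn.rpow_const_of_ne ?_ ?_
      · fun_prop
      · intro q hq
        rw [OV1_nsq]
        exact (Complex.normSq_pos.2 (OV1_Bne q hq)).ne'
    exact Complex.ofRealCLM.contDiff.comp_contDiffOn h1

lemma OV1_coe (h : SL(2, ℝ)) (z : ℍ) : ((h • z : ℍ) : ℂ) =
    ((h 0 0 : ℝ) * (z : ℂ) + (h 0 1 : ℝ)) / ((h 1 0 : ℝ) * (z : ℂ) + (h 1 1 : ℝ)) := by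
  rw [UpperHalfPlane.coe_specialLinearGroup_apply]
  rfl

lemma OV1_det (h : SL(2, ℝ)) : h 0 0 * h 1 1 - h 0 1 * h 1 0 = 1 := by
  have := h.det_coe
  rw [Matrix.det_fin_two] at this
  exact this

/-- the entries of `h` -/
def OV1_e (h : SL(2, ℝ)) : ℝ × ℝ × ℝ × ℝ := (h 0 0, h 0 1, h 1 0, h 1 1)

lemma OV1_mem (h : SL(2, ℝ)) (p : ℝ × ℝ) : (OV1_e h, p) ∈ OV1_U := by
  show 0 < (OV1_A (OV1_e h, p) * conj (OV1_B (OV1_e h, p))).im
  rw [OV1_val]
  show 0 < (h 0 0 * h 1 1 - h 0 1 * h 1 0) * Real.exp p.2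
  rw [OV1_det, one_mul]
  exact Real.exp_pos _

lemma OV1_pt (x τ : ℝ) : ((pt x τ : ℍ) : ℂ) = (x : ℂ) + (Real.exp τ : ℂ) * Complex.I := by
  apply Complex.ext
  · show x = _
    simp
  · show Real.exp τ = _
    simp [Complex.exp_ofReal_re]

lemma OV1_eq (c : ℍ → ℂ) (h : SL(2, ℝ)) : (fun p : ℝ × ℝ => c (pt p.1 p.2) * c (h • pt p.1 p.2) *
    (((((h 1 0 * p.1 + h 1 1) ^ 2 + (h 1 0) ^ 2 * Real.exp (2 * p.2)) ^ (-(1 / 2 : ℝ)) : ℝ)) : ℂ)) =
      fun p => OV1_G c (OV1_e h, p) := by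
  funext p
  unfold OV1_G
  have h1 : QU.onC c (OV1_Z (OV1_e h, p)) = c (pt p.1 p.2) := by
    rw [← QU.CA1_val c (pt p.1 p.2), OV1_pt]
    rfl
  have h2 : QU.onC c (OV1_A (OV1_e h, p) / OV1_B (OV1_e h, p)) = c (h • pt p.1 p.2) := by
    rw [← QU.CA1_val c (h • pt p.1 p.2), OV1_coe, OV1_pt]
    rfl
  rw [h1, h2]
  rfl

lemma OV1_ent (E x y u v a b c d : ℝ) (hE : 1 ≤ E) (hE2 : E ≤ 11 / 10) (hx : |x| ≤ 1 / 64)
    (hu : |u| ≤ 1 / 64) (hy1 : 1 ≤ y * E) (hy2 : y ≤ E) (hv1 : 1 ≤ v * E) (hv2 : v ≤ E)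
    (h1 : u * (c * x + d) - v * (c * y) = a * x + b)
    (h2 : u * (c * y) + v * (c * x + d) = a * y) (hdet : a * d - b * c = 1) :
    |a| ≤ 3 ∧ |b| ≤ 3 ∧ |c| ≤ 3 ∧ |d| ≤ 3 := by
  have hE0 : 0 < E := by linarith
  have hy0 : 0 < y := by
    by_contra hh
    push Not at hh
    nlinarith
  have hv0 : 0 < v := by
    by_contra hh
    push Not at hh
    nlinarith
  have h3 : v * ((c * x + d) ^ 2 + (c * y) ^ 2) = y := by
    have e1 : v * ((c * x + d) ^ 2 + (c * y) ^ 2) =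
        (a * y) * (c * x + d) - (a * x + b) * (c * y) := by
      rw [← h1, ← h2]; ring
    rw [e1]
    have e2 : (a * y) * (c * x + d) - (a * x + b) * (c * y) = y * (a * d - b * c) := by ring
    rw [e2, hdet, mul_one]
  have hs : (c * x + d) ^ 2 + (c * y) ^ 2 ≤ E ^ 2 := by
    have h4 : (c * x + d) ^ 2 + (c * y) ^ 2 ≤ (v * E) * ((c * x + d) ^ 2 + (c * y) ^ 2) :=
      le_mul_of_one_le_left (by positivity) hv1
    nlinarith
  have hc1 : |c * x + d| ≤ E := abs_le_of_sq_le_sq (by nlinarith [sq_nonneg (c * y)]) hE0.le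
  have hc2 : |c * y| ≤ E := abs_le_of_sq_le_sq (by nlinarith [sq_nonneg (c * x + d)]) hE0.le
  have key : ∀ t M : ℝ, |t * y| ≤ M → |t| ≤ M * E := by
    intro t M ht
    rw [abs_mul, abs_of_pos hy0] at ht
    calc |t| = |t| * 1 := (mul_one _).symm
      _ ≤ |t| * (y * E) := mul_le_mul_of_nonneg_left hy1 (abs_nonneg _)
      _ = |t| * y * E := by ring
      _ ≤ M * E := mul_le_mul_of_nonneg_right ht hE0.le
  have hcc : |c| ≤ E * E := key c E hc2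
  have hcx : |c * x| ≤ E * E * (1 / 64) := by
    rw [abs_mul]
    exact mul_le_mul hcc hx (abs_nonneg _) (by positivity)
  have hd : |d| ≤ E + E * E * (1 / 64) := by
    have : d = (c * x + d) - c * x := by ring
    rw [this]
    refine (abs_sub _ _).trans ?_
    linarith
  have hy' : |a * y| ≤ 1 / 64 * E + E * E := by
    rw [← h2]
    refine (abs_add_le _ _).trans ?_
    rw [abs_mul, abs_mul v, abs_of_pos hv0]
    exact add_le_add (mul_le_mul hu hc2 (abs_nonneg _) (by norm_num))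
      (mul_le_mul hv2 hc1 (abs_nonneg _) hE0.le)
  have ha : |a| ≤ (1 / 64 * E + E * E) * E := key a _ hy'
  have hb' : |a * x + b| ≤ 1 / 64 * E + E * E := by
    rw [← h1]
    refine (abs_sub _ _).trans ?_
    rw [abs_mul, abs_mul v, abs_of_pos hv0]
    exact add_le_add (mul_le_mul hu hc1 (abs_nonneg _) (by norm_num))
      (mul_le_mul hv2 hc2 (abs_nonneg _) hE0.le)
  have hax : |a * x| ≤ (1 / 64 * E + E * E) * E * (1 / 64) := by
    rw [abs_mul]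
    exact mul_le_mul ha hx (abs_nonneg _) (by positivity)
  have hb : |b| ≤ (1 / 64 * E + E * E) + (1 / 64 * E + E * E) * E * (1 / 64) := by
    have : b = (a * x + b) - a * x := by ring
    rw [this]
    refine (abs_sub _ _).trans ?_
    linarith
  have hEE : E * E ≤ 121 / 100 := by nlinarith
  have hEEE : E * E * E ≤ 1331 / 1000 := by nlinarith
  refine ⟨?_, ?_, ?_, ?_⟩ <;> nlinarith

lemma OV1_exp : Real.exp (1 / 64) ≤ 11 / 10 := by
  have := Real.exp_bound_div_one_sub_of_interval (x := 1 / 64) (by norm_num) (by norm_num)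
  refine this.trans (by norm_num)

lemma OV1_bds (h : SL(2, ℝ)) (z : ℍ) (hz1 : |z.re| ≤ 1 / 64) (hz2 : |Real.log z.im| ≤ 1 / 64)
    (hw1 : |(h • z).re| ≤ 1 / 64) (hw2 : |Real.log (h • z).im| ≤ 1 / 64) :
    |h 0 0| ≤ 3 ∧ |h 0 1| ≤ 3 ∧ |h 1 0| ≤ 3 ∧ |h 1 1| ≤ 3 := by
  have key : ∀ y : ℝ, 0 < y → |Real.log y| ≤ 1 / 64 →
      1 ≤ y * Real.exp (1 / 64) ∧ y ≤ Real.exp (1 / 64) := by
    intro y hy hl
    obtain ⟨l1, l2⟩ := abs_le.1 hl
    constructor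
    · nth_rewrite 1 [← Real.exp_log hy]
      rw [← Real.exp_add]
      exact Real.one_le_exp (by linarith)
    · calc y = Real.exp (Real.log y) := (Real.exp_log hy).symm
        _ ≤ _ := Real.exp_le_exp.2 l2
  obtain ⟨a1, a2⟩ := key z.im z.im_pos hz2
  obtain ⟨b1, b2⟩ := key (h • z).im (h • z).im_pos hw2
  have hne : ((h 1 0 : ℝ) * (z : ℂ) + (h 1 1 : ℝ)) ≠ 0 := by
    intro h0
    have h1 := OV1_coe h z
    rw [h0, div_zero] at h1
    have h2 := (h • z).im_pos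
    have h3 : (h • z).im = ((h • z : ℍ) : ℂ).im := rfl
    rw [h3, h1] at h2
    simp at h2
  have heq : ((h • z : ℍ) : ℂ) * ((h 1 0 : ℝ) * (z : ℂ) + (h 1 1 : ℝ)) =
      (h 0 0 : ℝ) * (z : ℂ) + (h 0 1 : ℝ) := by
    rw [OV1_coe, div_mul_cancel₀ _ hne]
  have hre := congrArg Complex.re heq
  have him := congrArg Complex.im heq
  simp only [Complex.mul_re, Complex.mul_im, Complex.add_re, Complex.add_im, Complex.ofReal_re,
    Complex.ofReal_im, zero_mul, sub_zero, add_zero, UpperHalfPlane.coe_re,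
    UpperHalfPlane.coe_im] at hre him
  have hdet := OV1_det h
  exact OV1_ent (Real.exp (1 / 64)) z.re z.im (h • z).re (h • z).im (h 0 0) (h 0 1) (h 1 0) (h 1 1)
    (Real.one_le_exp (by norm_num)) OV1_exp hz1 hw1 a1 a2 b1 b2 hre (by linarith) hdet

theorem OV1 (hGLC : GLC_stmt) (hFL0 : FL0_stmt) : OV1_stmt := by
  intro c hc
  have hG := OV1_Gs c hc.1
  have hG' : ContinuousOn (fderiv ℝ (OV1_G c)) OV1_U :=
    hG.continuousOn_fderiv_of_isOpen OV1_Uo le_rfl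
  set KK : Set ((ℝ × ℝ × ℝ × ℝ) × (ℝ × ℝ)) :=
    ((Icc (-3) 3 ×ˢ (Icc (-3) 3 ×ˢ (Icc (-3) 3 ×ˢ Icc (-3) 3))) ×ˢ
      (Icc (-(1 / 64)) (1 / 64) ×ˢ Icc (-(1 / 64)) (1 / 64))) ∩
      {q | q.1.1 * q.1.2.2.2 - q.1.2.1 * q.1.2.2.1 = 1} with hKK
  have hKc : IsCompact KK := by
    refine IsCompact.inter_right ?_ ?_
    · exact (isCompact_Icc.prod (isCompact_Icc.prod (isCompact_Icc.prod isCompact_Icc))).prod
        (isCompact_Icc.prod isCompact_Icc)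
    · exact isClosed_eq (by fun_prop) continuous_const
  have hKU : KK ⊆ OV1_U := by
    intro q hq
    show 0 < (OV1_A q * conj (OV1_B q)).im
    rw [OV1_val, hq.2, one_mul]
    exact Real.exp_pos _
  obtain ⟨K1, hK1⟩ := hKc.exists_bound_of_continuousOn (hG'.mono hKU)
  obtain ⟨K2, hK2⟩ := hKc.exists_bound_of_continuousOn (hG.continuousOn.mono hKU)
  refine ⟨max 1 (max K1 K2), lt_of_lt_of_le one_pos (le_max_left _ _), ?_⟩
  rintro h ⟨z, hz1, hz2⟩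
  obtain ⟨a1, a2⟩ := hc.2 z hz1
  obtain ⟨b1, b2⟩ := hc.2 (h • z) hz2
  have hent := OV1_bds h z a1 a2 b1 b2
  obtain ⟨e1, e2, e3, e4⟩ := hent
  have hs : ContDiff ℝ 1 (fun p : ℝ × ℝ => OV1_G c (OV1_e h, p)) := by
    rw [← contDiffOn_univ]
    refine hG.comp (s := univ) (g := OV1_G c) (f := fun p : ℝ × ℝ => (OV1_e h, p)) ?_ ?_
    · exact (contDiff_const.prodMk contDiff_id).contDiffOn
    · intro p _
      exact OV1_mem h p
  refine ⟨?_, ?_, ?_⟩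
  · intro i j
    fin_cases i <;> fin_cases j
    · exact e1
    · exact e2
    · exact e3
    · exact e4
  · rw [OV1_eq]
    exact hs
  · intro x τ
    rw [OV1_eq]
    have hv : c (pt x τ) * c (h • pt x τ) *
        (((((h 1 0 * x + h 1 1) ^ 2 + (h 1 0) ^ 2 * Real.exp (2 * τ)) ^ (-(1 / 2 : ℝ)) : ℝ)) : ℂ) =
        OV1_G c (OV1_e h, (x, τ)) := congrFun (OV1_eq c h) (x, τ)
    have hmem : |x| ≤ 1 / 64 → |τ| ≤ 1 / 64 → (OV1_e h, ((x, τ) : ℝ × ℝ)) ∈ KK := by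
      intro hx ht
      refine ⟨⟨⟨abs_le.1 e1, abs_le.1 e2, abs_le.1 e3, abs_le.1 e4⟩, abs_le.1 hx, abs_le.1 ht⟩, ?_⟩
      exact OV1_det h
    by_cases hb : |x| ≤ 1 / 64 ∧ |τ| ≤ 1 / 64
    · have hm := hmem hb.1 hb.2
      constructor
      · have hd : HasFDerivAt (fun p : ℝ × ℝ => OV1_G c (OV1_e h, p))
            ((fderiv ℝ (OV1_G c) (OV1_e h, (x, τ))).comp
              (ContinuousLinearMap.inr ℝ (ℝ × ℝ × ℝ × ℝ) (ℝ × ℝ))) (x, τ) := by
          have h1 : HasFDerivAt (OV1_G c) (fderiv ℝ (OV1_G c) (OV1_e h, (x, τ)))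
              (OV1_e h, (x, τ)) :=
            ((hG.differentiableOn one_ne_zero).differentiableAt
              (OV1_Uo.mem_nhds (OV1_mem h (x, τ)))).hasFDerivAt
          exact h1.comp (x, τ) (hasFDerivAt_prodMk_right (OV1_e h) (x, τ))
        rw [hd.fderiv]
        refine (ContinuousLinearMap.opNorm_comp_le _ _).trans ?_
        have h2 := hK1 _ hm
        have h3 : ‖ContinuousLinearMap.inr ℝ (ℝ × ℝ × ℝ × ℝ) (ℝ × ℝ)‖ ≤ 1 :=
          ContinuousLinearMap.norm_inr_le_one ℝ _ _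
        calc _ ≤ K1 * 1 := mul_le_mul h2 h3 (norm_nonneg _) ((norm_nonneg _).trans h2)
          _ ≤ _ := by
            rw [mul_one]
            exact (le_max_left _ _).trans (le_max_right _ _)
      · rw [hv]
        exact (hK2 _ hm).trans ((le_max_right _ _).trans (le_max_right _ _))
    · have hz : ∀ p : ℝ × ℝ, ¬(|p.1| ≤ 1 / 64 ∧ |p.2| ≤ 1 / 64) → OV1_G c (OV1_e h, p) = 0 := by
        intro p hp
        have h1 := congrFun (OV1_eq c h) p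
        rw [← h1]
        have h2 : c (pt p.1 p.2) = 0 := by
          by_contra h3
          obtain ⟨h4, h5⟩ := hc.2 _ h3
          apply hp
          refine ⟨h4, ?_⟩
          have h6 : (pt p.1 p.2).im = Real.exp p.2 := rfl
          rwa [h6, Real.log_exp] at h5
        rw [h2, zero_mul, zero_mul]
      constructor
      · have ho : IsOpen {p : ℝ × ℝ | ¬(|p.1| ≤ 1 / 64 ∧ |p.2| ≤ 1 / 64)} := by
          have c1 : IsClosed {p : ℝ × ℝ | |p.1| ≤ 1 / 64} :=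
            isClosed_le continuous_fst.abs continuous_const
          have c2 : IsClosed {p : ℝ × ℝ | |p.2| ≤ 1 / 64} :=
            isClosed_le continuous_snd.abs continuous_const
          exact (c1.inter c2).isOpen_compl
        have he : (fun p : ℝ × ℝ => OV1_G c (OV1_e h, p)) =ᶠ[𝓝 (x, τ)] fun _ => 0 := by
          filter_upwards [ho.mem_nhds hb] with p hp
          exact hz p hp
        rw [he.fderiv_eq]
        simp
      · rw [hv, hz (x, τ) hb, norm_zero]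
        exact le_trans zero_le_one (le_max_left _ _)

end

end Pool.Agent.RS
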